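import Mathlib
import Pool.Agent.N70.EP.Voc

/-!
Fibre powers have core-free subgroups of small index.
-/

set_option autoImplicit false

namespace Pool.Agent.N840.MA

open Pool.Agent.N70.EP.Voc

/-- A permutation of given sign which maps `i` to `j`. -/
theorem exists_sign {n : ℕ} (hn : 3 ≤ n) (i j : Fin n) (s : ℤˣ) :
    ∃ σ : Equiv.Perm (Fin n), Equiv.Perm.sign σ = s ∧ σ i = j := by
  -- two points different from `i`
  have hc : 2 ≤ (Finset.univ.erase i : Finset (Fin n)).card := by
    rw [Finset.card_erase_of_mem (Finset.mem_univ _), Finset.card_univ, Fintype.card_fin]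
    omega
  obtain ⟨c, hc1, d, hd1, hcd⟩ := Finset.one_lt_card.1 hc
  have hci : i ≠ c := (Finset.ne_of_mem_erase hc1).symm
  have hdi : i ≠ d := (Finset.ne_of_mem_erase hd1).symm
  rcases Int.units_eq_one_or (Equiv.Perm.sign (Equiv.swap i j) * s) with h | h
  · refine ⟨Equiv.swap i j, ?_, Equiv.swap_apply_left i j⟩
    have h2 : Equiv.Perm.sign (Equiv.swap i j) * (Equiv.Perm.sign (Equiv.swap i j) * s) = s := by
      rw [← mul_assoc, Int.units_mul_self, one_mul]
    rw [h, mul_one] at h2
    exact h2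
  · refine ⟨Equiv.swap i j * Equiv.swap c d, ?_, ?_⟩
    · rw [map_mul, Equiv.Perm.sign_swap hcd]
      have h2 : Equiv.Perm.sign (Equiv.swap i j) * (Equiv.Perm.sign (Equiv.swap i j) * s) = s := by
        rw [← mul_assoc, Int.units_mul_self, one_mul]
      rw [h] at h2
      exact h2
    · rw [Equiv.Perm.mul_apply, Equiv.swap_apply_of_ne_of_ne hci hdi, Equiv.swap_apply_left]

section

variable {B W : Type} [Group B] [Group W]

/-- The action of the fibre power on `B × {1, ..., n}`. -/
@[instance_reducible]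
def twAct (α : B →* W) (χ : W →* ℤˣ) (n : ℕ) : MulAction (TwPow α χ n) (B × Fin n) where
  smul z x := (z.1.1.left (z.1.1.right x.2) * x.1, z.1.1.right x.2)
  one_smul x := by
    change ((1 : B) * x.1, x.2) = x
    rw [one_mul]
  mul_smul z w x := by
    change ((z.1.1.left ((z.1.1.right * w.1.1.right) x.2) *
      w.1.1.left (z.1.1.right⁻¹ ((z.1.1.right * w.1.1.right) x.2))) * x.1,
      (z.1.1.right * w.1.1.right) x.2) = (z.1.1.left (z.1.1.right (w.1.1.right x.2)) *
      (w.1.1.left (w.1.1.right x.2) * x.1), z.1.1.right (w.1.1.right x.2))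
    rw [Equiv.Perm.mul_apply, show z.1.1.right⁻¹ (z.1.1.right (w.1.1.right x.2)) = w.1.1.right x.2
      from z.1.1.right.symm_apply_apply _, mul_assoc]

theorem tw_core [Finite B] (α : B →* W) (χ : W →* ℤˣ) (n : ℕ) (hn : 3 ≤ n) :
    ∃ U : Subgroup (TwPow α χ n), U.normalCore = ⊥ ∧ U.index ≤ Nat.card B * n := by
  classical
  let _ := twAct α χ n
  let i₀ : Fin n := ⟨0, by omega⟩
  have hdef : ∀ (w : TwPow α χ n) (x : B × Fin n),
      w • x = (w.1.1.left (w.1.1.right x.2) * x.1, w.1.1.right x.2) := fun _ _ => rfl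
  have htrans : ∀ x : B × Fin n, ∃ w : TwPow α χ n, w • ((1 : B), i₀) = x := by
    rintro ⟨a, i⟩
    obtain ⟨σ, h1, h2⟩ := exists_sign hn i₀ i (χ (α a))
    refine ⟨⟨(⟨fun _ => a, σ⟩, α a), ⟨fun _ => rfl, h1⟩⟩, ?_⟩
    rw [hdef]
    simp [h2]
  refine ⟨MulAction.stabilizer (TwPow α χ n) ((1 : B), i₀), ?_, ?_⟩
  · rw [eq_bot_iff]
    intro x hx
    have hfix : ∀ y : B × Fin n, x • y = y := by
      intro y
      obtain ⟨w, rfl⟩ := htrans y
      have h1 : w⁻¹ * x * w ∈ MulAction.stabilizer (TwPow α χ n) ((1 : B), i₀) := by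
        have := hx w⁻¹
        simpa using this
      rw [MulAction.mem_stabilizer_iff, mul_smul, mul_smul, inv_smul_eq_iff] at h1
      exact h1
    rw [Subgroup.mem_bot]
    have hr : x.1.1.right = 1 := by
      ext i
      have := congrArg (fun z : B × Fin n => (z.2 : ℕ)) (hfix (1, i))
      simpa [hdef] using this
    have hl : x.1.1.left = 1 := by
      funext i
      have := congrArg Prod.fst (hfix (1, i))
      rw [hdef] at this
      simp only [hr, Equiv.Perm.one_apply, mul_one] at this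
      exact this
    apply Subtype.ext
    apply Prod.ext
    · exact SemidirectProduct.ext hl hr
    · have h3 := x.2.1 i₀
      rw [hl] at h3
      rw [← h3]
      exact map_one α
  · rw [MulAction.index_stabilizer]
    refine (Set.ncard_le_ncard (Set.subset_univ _) Set.finite_univ).trans ?_
    rw [Set.ncard_univ, Nat.card_prod, Nat.card_fin]

/-- There are at least `n! / 2` elements. -/
theorem tw_card [Finite B] [Finite W] (α : B →* W) (χ : W →* ℤˣ) (n : ℕ) (hn : 2 ≤ n) :
    n.factorial ≤ 2 * Nat.card (TwPow α χ n) := by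
  have hW : Finite (Wreath B n) :=
    Finite.of_injective (fun w : Wreath B n => (w.left, w.right)) (by
      intro w w' h
      exact SemidirectProduct.ext (congrArg Prod.fst h) (congrArg Prod.snd h))
  have hf : Finite (TwPow α χ n) := Finite.of_injective Subtype.val Subtype.val_injective
  have hnt : Nontrivial (Fin n) := Fin.nontrivial_iff_two_le.2 hn
  have h1 : 2 * Nat.card (alternatingGroup (Fin n)) = n.factorial := by
    rw [Nat.card_eq_fintype_card, two_mul_card_alternatingGroup, Fintype.card_perm,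
      Fintype.card_fin]
  have h2 : Nat.card (alternatingGroup (Fin n)) ≤ Nat.card (TwPow α χ n) := by
    refine Nat.card_le_card_of_injective (fun σ => ⟨(⟨fun _ => 1, σ.1⟩, 1),
      ⟨fun _ => map_one α, ?_⟩⟩) ?_
    · rw [map_one]
      exact Equiv.Perm.mem_alternatingGroup.1 σ.2
    · intro σ τ h
      apply Subtype.ext
      have h3 := congrArg (fun z : TwPow α χ n => z.1.1.right) h
      exact h3
  omega

theorem fac_bound (b n : ℕ) (hn : 4 * b ^ 2 + 11 ≤ n) (hb : 1 ≤ b) :
    2 * (8 * (b * n) * (b * n + 1)) ≤ n.factorial := by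
  have h3 : ∀ m : ℕ, 32 * (m + 10) ^ 2 ≤ (m + 10).factorial := by
    intro m
    induction m with
    | zero => decide
    | succ m ih =>
      have e : (m + 1 + 10).factorial = (m + 11) * (m + 10).factorial := by
        rw [show m + 1 + 10 = (m + 10) + 1 by ring, Nat.factorial_succ]
      rw [e]
      have : 32 * (m + 1 + 10) ^ 2 ≤ (m + 11) * (32 * (m + 10) ^ 2) := by nlinarith
      exact this.trans (Nat.mul_le_mul_left _ ih)
  obtain ⟨m, rfl⟩ : ∃ m, n = m + 10 + 1 := ⟨n - 11, by omega⟩
  have h4 : (m + 10 + 1).factorial = (m + 10 + 1) * (m + 10).factorial := Nat.factorial_succ _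
  have h5 : 1 ≤ b * (m + 10 + 1) := Nat.one_le_iff_ne_zero.2 (by positivity)
  have h6 : 2 * (8 * (b * (m + 10 + 1)) * (b * (m + 10 + 1) + 1)) ≤
      32 * (b ^ 2 * (m + 10 + 1) ^ 2) := by nlinarith
  have h7 : (m + 10 + 1) ^ 2 ≤ 4 * (m + 10) ^ 2 := by nlinarith
  calc 2 * (8 * (b * (m + 10 + 1)) * (b * (m + 10 + 1) + 1))
      ≤ 32 * (b ^ 2 * (m + 10 + 1) ^ 2) := h6
    _ ≤ 32 * (b ^ 2 * (4 * (m + 10) ^ 2)) := by gcongr
    _ = (4 * b ^ 2) * (32 * (m + 10) ^ 2) := by ring
    _ ≤ (m + 10 + 1) * (m + 10).factorial := Nat.mul_le_mul (by omega) (h3 m)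
    _ = (m + 10 + 1).factorial := h4.symm

/-- The numerical conditions. -/
theorem tw_data [Finite B] [Finite W] (α : B →* W) (χ : W →* ℤˣ)
    (n : ℕ) (hn : 4 * Nat.card B ^ 2 + 11 ≤ n) : Finite (TwPow α χ n) ∧
    2 ≤ Nat.card (TwPow α χ n) ∧ ∃ U : Subgroup (TwPow α χ n), U.normalCore = ⊥ ∧
      8 * U.index * (U.index + 1) ≤ Nat.card (TwPow α χ n) := by
  have hW : Finite (Wreath B n) :=
    Finite.of_injective (fun w : Wreath B n => (w.left, w.right)) (by
      intro w w' h
      exact SemidirectProduct.ext (congrArg Prod.fst h) (congrArg Prod.snd h))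
  have hf : Finite (TwPow α χ n) := Finite.of_injective Subtype.val Subtype.val_injective
  have hb : 1 ≤ Nat.card B := Nat.card_pos
  have h1 := fac_bound (Nat.card B) n hn hb
  have h2 := tw_card α χ n (by omega)
  have h3 : 11 ≤ Nat.card B * n := by nlinarith
  refine ⟨hf, by nlinarith, ?_⟩
  obtain ⟨U, hU, hi⟩ := tw_core α χ n (by omega)
  refine ⟨U, hU, ?_⟩
  have h4 : 8 * U.index * (U.index + 1) ≤ 8 * (Nat.card B * n) * (Nat.card B * n + 1) := by
    gcongr
  omega

end

end Pool.Agent.N840.MA
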